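import Pool.Agent.Lib.MP_5e7226_co.E6X.Core

set_option autoImplicit false

/-! `E_6`: the two cases and the assembly. -/

namespace Pool.Agent.Lib.MP_5e7226_co.E6X

open Finset
open Pool.Agent.Lib.MP_5e7226_co.DX (Works)

variable {G : Set ((Fin 6 → ℝ) × (Fin 6 → ℝ))}

theorem dom_ind_x (P : (Fin 6 → ℝ) → Prop) (h0 : ∀ x, (∀ i, 0 ≤ lam x i) → P x)
    (h1 : ∀ x i, P (rx i x) → P x) : ∀ x, P x := by
  have key : ∀ v : Fin 6 → ℝ, ∀ x, lam x = v → P x := by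
    apply dom_ind
    · intro v hv x hx
      apply h0
      rw [hx]
      exact hv
    · intro v i hv x hx
      apply h1 x i
      apply hv
      rw [lam_rx, hx]
  exact fun x => key _ x rfl

/-- the multiple of a vector -/
def sc (t : ℝ) (x : Fin 6 → ℝ) : Fin 6 → ℝ := fun j => t * x j

theorem pr_sc (u x : Fin 6 → ℝ) (t : ℝ) : pr u (sc t x) = t * pr u x := by
  unfold pr sc
  rw [mul_sum]
  exact sum_congr rfl fun i _ => by ring

theorem rx_sc (i : Fin 6) (t : ℝ) (x : Fin 6 → ℝ) : rx i (sc t x) = sc t (rx i x) := by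
  funext j
  by_cases h : j = i
  · subst h
    simp only [rx, sc, if_true, Fin.sum_univ_six]
    ring
  · simp only [rx, sc, if_neg h]

theorem only1 {x : Fin 6 → ℝ} (h0 : lam x 0 = 0) (h2 : lam x 2 = 0) (h3 : lam x 3 = 0) (h4 : lam x 4 = 0)
    (h5 : lam x 5 = 0) : x = sc (lam x 1) (R 71) := by
  simp [lam, C, Fin.sum_univ_six] at h0 h2 h3 h4 h5
  funext j
  fin_cases j <;> simp [sc, lam, C, R, cs, rt, Fin.sum_univ_six] <;> linarith

theorem only5 {x : Fin 6 → ℝ} (h0 : lam x 0 = 0) (h1 : lam x 1 = 0) (h2 : lam x 2 = 0) (h3 : lam x 3 = 0)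
    (h4 : lam x 4 = 0) : x = sc (lam x 5 / 3) (M 26) := by
  simp [lam, C, Fin.sum_univ_six] at h0 h1 h2 h3 h4
  funext j
  fin_cases j <;> simp [sc, lam, C, M, cs, om, Fin.sum_univ_six] <;> linarith

theorem zero_lam (hG : Dual6 G) {x u : Fin 6 → ℝ} (h : (x, u) ∈ G) (h0 : lam x 0 = 0) (h1 : lam x 1 = 0)
    (h2 : lam x 2 = 0) (h3 : lam x 3 = 0) (h4 : lam x 4 = 0) (h5 : lam x 5 = 0) : False := by
  have h6 := only1 h0 h2 h3 h4 h5
  have h7 := one' hG h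
  rw [h6, pr_sc, h1, zero_mul] at h7
  exact zero_ne_one h7

/-- Case A -/
theorem caseA (hG : Dual6 G) (hA : ∀ t u, 0 < t → (sc t (R 71), u) ∈ G → 0 < pr u W1) :
    ∀ q ∈ G, (∃ k, Works G q.1 (N k)) ∨ ∃ k, Works G q.1 (M k) := by
  have key : ∀ x : Fin 6 → ℝ, (∃ u, (x, u) ∈ G) → (∃ k, Works G x (N k)) ∨ ∃ k, Works G x (M k) := by
    apply dom_ind_x
    · rintro x hx ⟨u, hu⟩
      by_cases h0 : 0 < lam x 0
      · exact Or.inl ⟨0, by rw [N_zero]; exact s0 hG hx h0⟩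
      by_cases h2 : 0 < lam x 2
      · exact Or.inl ⟨0, by rw [N_zero]; exact s2 hG hx h2⟩
      by_cases h3 : 0 < lam x 3
      · exact Or.inl ⟨0, by rw [N_zero]; exact s3 hG hx h3⟩
      by_cases h4 : 0 < lam x 4
      · exact Or.inr ⟨26, m4 hG hx h4⟩
      by_cases h5 : 0 < lam x 5
      · exact Or.inr ⟨26, m5 hG hx h5⟩
      have e0 : lam x 0 = 0 := le_antisymm (not_lt.1 h0) (hx 0)
      have e2 : lam x 2 = 0 := le_antisymm (not_lt.1 h2) (hx 2)
      have e3 : lam x 3 = 0 := le_antisymm (not_lt.1 h3) (hx 3)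
      have e4 : lam x 4 = 0 := le_antisymm (not_lt.1 h4) (hx 4)
      have e5 : lam x 5 = 0 := le_antisymm (not_lt.1 h5) (hx 5)
      by_cases h1 : 0 < lam x 1
      · refine Or.inl ⟨0, ?_⟩
        rw [N_zero]
        intro w hw
        have h6 := only1 e0 e2 e3 e4 e5
        rw [h6] at hw
        exact hA _ w h1 hw
      · exact (zero_lam hG hu e0 (le_antisymm (not_lt.1 h1) (hx 1)) e2 e3 e4 e5).elim
    · rintro x i hP ⟨u, hu⟩
      rcases hP ⟨_, inv' hG hu i⟩ with ⟨k, hk⟩ | ⟨k, hk⟩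
      · refine Or.inl ⟨sm i k, ?_⟩
        rw [← rx_N]
        exact works_rx hG i hk
      · refine Or.inr ⟨sm i k, ?_⟩
        rw [← rx_M]
        exact works_rx hG i hk
  exact fun q hq => key q.1 ⟨q.2, hq⟩

section B

variable {t : ℝ} {u₀ : Fin 6 → ℝ}

theorem bF (hG : Dual6 G) (ht : 0 < t) (hu : (sc t (R 71), u₀) ∈ G) (hw : pr u₀ W1 ≤ 0) (k : Fin 27) :
    ∃ x' u', (x', u') ∈ G ∧ 3 ≤ t * pr u' (M k) := by
  refine orbM (fun k => ∃ x' u', (x', u') ∈ G ∧ 3 ≤ t * pr u' (M k)) ?_ 19 k ?_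
  · rintro i k ⟨x', u', h, h1⟩
    refine ⟨rx i x', ru i u', inv' hG h i, ?_⟩
    rw [← rx_M, pr_rx, ru_ru]
    exact h1
  · refine ⟨_, u₀, hu, ?_⟩
    have h1 := one' hG hu
    rw [pr_sc] at h1
    have h2 : pr u₀ (M 19) = 3 * pr u₀ (R 71) - pr u₀ W1 := by
      simp [pr, M, R, cs, om, rt, W1, Fin.sum_univ_six]
      ring
    rw [h2]
    nlinarith

theorem bD (hG : Dual6 G) (ht : 0 < t) (hu : (sc t (R 71), u₀) ∈ G) (hw : pr u₀ W1 ≤ 0) :
    ∃ x' u', (x', u') ∈ G ∧ (∀ i, 0 ≤ u' i) ∧ 3 ≤ t * pr u' (M 26) := by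
  obtain ⟨x₁, u₁, h1, h2⟩ := bF hG ht hu hw 26
  have key : ∀ v : Fin 6 → ℝ, (∃ x, (x, v) ∈ G) → (∃ k, 3 ≤ t * pr v (M k)) →
      ∃ x' u', (x', u') ∈ G ∧ (∀ i, 0 ≤ u' i) ∧ 3 ≤ t * pr u' (M 26) := by
    apply dom_ind
    · rintro v hv ⟨x, hx⟩ ⟨k, hk⟩
      refine ⟨x, v, hx, hv, hk.trans ?_⟩
      apply mul_le_mul_of_nonneg_left _ ht.le
      unfold pr
      apply sum_le_sum
      intro j _
      apply mul_le_mul_of_nonneg_left _ (hv j)
      have h3 := om_le k j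
      change ((om k j : ℤ) : ℝ) ≤ ((om 26 j : ℤ) : ℝ)
      exact_mod_cast h3
    · rintro v i hP ⟨x, hx⟩ ⟨k, hk⟩
      refine hP ⟨_, inv' hG hx i⟩ ⟨sm i k, ?_⟩
      rw [← rx_M, pr_rx, ru_ru]
      exact hk
  exact key u₁ ⟨x₁, h1⟩ ⟨26, h2⟩

theorem bR (hG : Dual6 G) (hu : (sc t (R 71), u₀) ∈ G) {y w : Fin 6 → ℝ} (h : (y, w) ∈ G)
    (k : Fin 72) : t * pr w (R k) ≤ 1 := by
  obtain ⟨u', hu'⟩ : ∃ u', (sc t (R k), u') ∈ G := by
    refine orbR (fun k => ∃ u', (sc t (R k), u') ∈ G) ?_ 71 k ⟨u₀, hu⟩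
    rintro i k ⟨u', h'⟩
    refine ⟨ru i u', ?_⟩
    have h1 := inv' hG h' i
    rw [rx_sc, rx_R] at h1
    exact h1
  have h1 := le' hG h hu'
  rwa [pr_sc] at h1

theorem bS (hG : Dual6 G) (ht : 0 < t) (hu : (sc t (R 71), u₀) ∈ G) (hw : pr u₀ W1 ≤ 0) {s : ℝ} (hs : 0 < s)
    {w : Fin 6 → ℝ} {k : Fin 27} (h : (sc s (M k), w) ∈ G) : 3 * s ≤ t := by
  obtain ⟨x', u', h1, h2⟩ := bF hG ht hu hw k
  have h3 := le' hG h1 h
  rw [pr_sc] at h3
  have h4 : s * 3 ≤ s * (t * pr u' (M k)) := mul_le_mul_of_nonneg_left h2 hs.le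
  have h5 : t * (s * pr u' (M k)) ≤ t * 1 := mul_le_mul_of_nonneg_left h3 ht.le
  linarith

/-- three times the fifth fundamental weight -/
def W5 : Fin 6 → ℝ := ![4, 6, 8, 12, 10, 5]

theorem b4 (hG : Dual6 G) (ht : 0 < t) (hu : (sc t (R 71), u₀) ∈ G) (hw : pr u₀ W1 ≤ 0) {x : Fin 6 → ℝ}
    (hx : ∀ i, 0 ≤ lam x i) (h0 : lam x 0 = 0) (h1 : lam x 1 = 0) (h2 : lam x 2 = 0) (h3 : lam x 3 = 0)
    (h4 : 0 < lam x 4) : Works G x W1 := by
  rw [works_iff]
  intro v hv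
  by_contra hcon
  push Not at hcon
  have hx5 := hx 5
  have hexp : ∀ a : Fin 6 → ℝ, 3 * pr a x = lam x 4 * pr a W5 + lam x 5 * pr a (M 26) := by
    intro a
    have e0 : 3 * x 0 = lam x 4 * 4 + lam x 5 * 2 := by
      simp [lam, C, Fin.sum_univ_six] at h0 h1 h2 h3 ⊢
      linarith
    have e1 : 3 * x 1 = lam x 4 * 6 + lam x 5 * 3 := by
      simp [lam, C, Fin.sum_univ_six] at h0 h1 h2 h3 ⊢
      linarith
    have e2 : 3 * x 2 = lam x 4 * 8 + lam x 5 * 4 := by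
      simp [lam, C, Fin.sum_univ_six] at h0 h1 h2 h3 ⊢
      linarith
    have e3 : 3 * x 3 = lam x 4 * 12 + lam x 5 * 6 := by
      simp [lam, C, Fin.sum_univ_six] at h0 h1 h2 h3 ⊢
      linarith
    have e4 : 3 * x 4 = lam x 4 * 10 + lam x 5 * 5 := by
      simp [lam, C, Fin.sum_univ_six] at h0 h1 h2 h3 ⊢
      linarith
    have e5 : 3 * x 5 = lam x 4 * 5 + lam x 5 * 4 := by
      simp [lam, C, Fin.sum_univ_six] at h0 h1 h2 h3 ⊢
      linarith
    simp [pr, W5, M, cs, om, Fin.sum_univ_six]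
    linear_combination a 0 * e0 + a 1 * e1 + a 2 * e2 + a 3 * e3 + a 4 * e4 + a 5 * e5
  obtain ⟨x', u', hb, hb0, hb3⟩ := bD hG ht hu hw
  have k1 := hexp u'
  have k2 := le' hG hb hv
  have k3 := hexp v
  rw [one' hG hv] at k3
  have k4 := bR hG hu hv 64
  -- the dominant functional
  have k5 : pr u' (M 26) < pr u' W5 := by
    have hb00 := hb0 0
    have hb01 := hb0 1
    have hb02 := hb0 2
    have hb03 := hb0 3
    have hb04 := hb0 4
    have hb05 := hb0 5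
    by_contra hc
    push Not at hc
    simp [pr, W5, M, cs, om, Fin.sum_univ_six] at hc
    refine zero_of hG hb fun i => ?_
    fin_cases i
    · change u' 0 = 0
      linarith
    · change u' 1 = 0
      linarith
    · change u' 2 = 0
      linarith
    · change u' 3 = 0
      linarith
    · change u' 4 = 0
      linarith
    · change u' 5 = 0
      linarith
  have f1 := ge hG hv 55 (by simp [pr, R, cs, rt, Fin.sum_univ_six]; linarith)
  have f2 := ge hG hv 60 (by simp [pr, R, cs, rt, Fin.sum_univ_six]; linarith)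
  have f3 := ge hG hv 65 (by simp [pr, R, cs, rt, Fin.sum_univ_six]; linarith)
  have f4 := ge hG hv 66 (by simp [pr, R, cs, rt, Fin.sum_univ_six]; linarith)
  have g1 : pr v W5 ≤ 3 * pr v (R 64) := by
    simp [pr, R, cs, rt, W1, W5, Fin.sum_univ_six] at hcon ⊢
    linarith
  have g2 : 2 * pr v (M 26) ≤ 3 * pr v (R 64) := by
    simp [pr, R, M, cs, rt, om, W1, Fin.sum_univ_six] at hcon f1 f2 f3 f4 ⊢
    linarith
  set a := lam x 4 with ha
  set b := lam x 5 with hb'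
  set p := pr v (R 64) with hp
  set q := pr u' (M 26) with hq
  set r := pr u' W5 with hr
  have l1 : 1 ≤ (a + b / 2) * p := by
    have m1 := mul_le_mul_of_nonneg_left g1 h4.le
    have m2 := mul_le_mul_of_nonneg_left g2 hx5
    linarith
  have l2 : t ≤ a + b / 2 := by
    have m1 := mul_le_mul_of_nonneg_left l1 ht.le
    have m2 : (a + b / 2) * (t * p) ≤ (a + b / 2) * 1 := mul_le_mul_of_nonneg_left k4 (by positivity)
    linarith
  have l3 : (a + b) * q < 3 := by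
    have m1 := mul_lt_mul_of_pos_left k5 h4
    linarith
  have l4 : (a + b) * 3 < t * 3 := by
    have m1 : (a + b) * 3 ≤ (a + b) * (t * q) := mul_le_mul_of_nonneg_left hb3 (by positivity)
    have m2 := mul_lt_mul_of_pos_left l3 ht
    linarith
  linarith

end B

theorem pr_lam (a b : Fin 6 → ℤ) (t : ℝ) : pr (lam (sc t (cs a))) (cs b) = t * (ipz b a : ℤ) := by
  simp [pr, lam, sc, cs, ipz, C, Fin.sum_univ_six]
  ring

theorem pr_sum {n : ℕ} (u : Fin 6 → ℝ) (z : Fin n → Fin 6 → ℝ) :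
    pr u (fun j => ∑ a, z a j) = ∑ a, pr u (z a) := by
  unfold pr
  rw [sum_comm]
  exact sum_congr rfl fun i _ => by rw [mul_sum]

/-- the sum of a clique of roots works for the multiples of its members -/
theorem cliqueR (hG : Dual6 G) {t : ℝ} (ht : 0 < t) (k : Fin 72) :
    Works G (sc t (R k)) (fun j => ∑ a, R (cR (aR k) a) j) := by
  rw [works_iff]
  intro u hu
  rw [pr_sum]
  obtain ⟨a₀, ha₀⟩ := aR_mem k
  have h1 := one' hG hu
  rw [pr_sc] at h1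
  have h2 : 0 < pr u (R k) := by
    by_contra hcon
    push Not at hcon
    have := mul_nonpos_of_nonneg_of_nonpos ht.le hcon
    linarith
  refine lt_of_lt_of_le h2 ?_
  have h3 : ∀ a ∈ (univ : Finset (Fin 5)), 0 ≤ pr u (R (cR (aR k) a)) := by
    intro a _
    by_cases ha : a = a₀
    · rw [ha, ha₀]
      exact h2.le
    · apply ge hG hu
      have h4 := cR_ip (aR k) a a₀ ha
      rw [ha₀] at h4
      unfold R
      rw [pr_lam, h4]
      simpa using ht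
  have h5 := single_le_sum h3 (mem_univ a₀)
  rw [ha₀] at h5
  exact h5

/-- the sum of a clique of weights works for the multiples of its members -/
theorem cliqueM (hG : Dual6 G) {t : ℝ} {u₀ : Fin 6 → ℝ} (ht : 0 < t) (hu₀ : (sc t (R 71), u₀) ∈ G)
    (hw : pr u₀ W1 ≤ 0) {s : ℝ} (hs : 0 < s) (k : Fin 27) :
    Works G (sc s (M k)) (fun j => ∑ a, M (cM (aM k) a) j) := by
  rw [works_iff]
  intro u hu
  rw [pr_sum]
  obtain ⟨a₀, ha₀⟩ := aM_mem k
  have h1 := one' hG hu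
  rw [pr_sc] at h1
  have h2 : 0 < pr u (M k) := by
    by_contra hcon
    push Not at hcon
    have := mul_nonpos_of_nonneg_of_nonpos hs.le hcon
    linarith
  have h3s := bS hG ht hu₀ hw hs hu
  refine lt_of_lt_of_le h2 ?_
  have h3 : ∀ a ∈ (univ : Finset (Fin 6)), 0 ≤ pr u (M (cM (aM k) a)) := by
    intro a _
    rcases cM_sub (aM k) a₀ a with h4 | h4
    · rw [← h4, ha₀]
      exact h2.le
    · rw [ha₀] at h4
      have h5 : pr u (M (cM (aM k) a)) = pr u (M k) - 3 * pr u (R (dM (aM k) a₀ a)) := by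
        unfold pr
        rw [mul_sum, ← sum_sub_distrib]
        refine sum_congr rfl fun j _ => ?_
        have h6 : ((om k j : ℤ) : ℝ) - (om (cM (aM k) a) j : ℤ) = 3 * ((rt (dM (aM k) a₀ a) j : ℤ) : ℝ) := by
          exact_mod_cast h4 j
        change u j * ((om (cM (aM k) a) j : ℤ) : ℝ) = u j * ((om k j : ℤ) : ℝ) -
          3 * (u j * ((rt (dM (aM k) a₀ a) j : ℤ) : ℝ))
        linear_combination (-(u j)) * h6
      have h6 := bR hG hu₀ hu (dM (aM k) a₀ a)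
      rw [h5]
      by_contra hcon
      push Not at hcon
      have h7 : 0 < s * t := mul_pos hs ht
      have h8 := mul_neg_of_pos_of_neg h7 hcon
      have h9 : 3 * s * (t * pr u (R (dM (aM k) a₀ a))) ≤ 3 * s * 1 := mul_le_mul_of_nonneg_left h6 (by positivity)
      have h10 : s * t * (pr u (M k) - 3 * pr u (R (dM (aM k) a₀ a))) =
          t * (s * pr u (M k)) - 3 * s * (t * pr u (R (dM (aM k) a₀ a))) := by ring
      rw [h10, h1] at h8
      linarith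
  have h5 := single_le_sum h3 (mem_univ a₀)
  rw [ha₀] at h5
  exact h5

/-- Case B -/
theorem caseB (hG : Dual6 G) {t : ℝ} {u₀ : Fin 6 → ℝ} (ht : 0 < t) (hu₀ : (sc t (R 71), u₀) ∈ G)
    (hw : pr u₀ W1 ≤ 0) : ∀ q ∈ G, (∃ k, Works G q.1 (N k)) ∨
      (∃ c, Works G q.1 (fun j => ∑ a, R (cR c a) j)) ∨ ∃ c, Works G q.1 (fun j => ∑ a, M (cM c a) j) := by
  have key : ∀ x : Fin 6 → ℝ, (∃ u, (x, u) ∈ G) → (∃ k, Works G x (N k)) ∨
      (∃ s k, 0 < s ∧ x = sc s (R k)) ∨ ∃ s k, 0 < s ∧ x = sc s (M k) := by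
    apply dom_ind_x
    · rintro x hx ⟨u, hu⟩
      by_cases h0 : 0 < lam x 0
      · exact Or.inl ⟨0, by rw [N_zero]; exact s0 hG hx h0⟩
      by_cases h2 : 0 < lam x 2
      · exact Or.inl ⟨0, by rw [N_zero]; exact s2 hG hx h2⟩
      by_cases h3 : 0 < lam x 3
      · exact Or.inl ⟨0, by rw [N_zero]; exact s3 hG hx h3⟩
      have e0 : lam x 0 = 0 := le_antisymm (not_lt.1 h0) (hx 0)
      have e2 : lam x 2 = 0 := le_antisymm (not_lt.1 h2) (hx 2)
      have e3 : lam x 3 = 0 := le_antisymm (not_lt.1 h3) (hx 3)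
      by_cases h1 : 0 < lam x 1
      · by_cases h4 : 0 < lam x 4
        · exact Or.inl ⟨0, by rw [N_zero]; exact s14 hG hx h1 h4⟩
        by_cases h5 : 0 < lam x 5
        · exact Or.inl ⟨0, by rw [N_zero]; exact s15 hG hx h1 h5⟩
        have e4 : lam x 4 = 0 := le_antisymm (not_lt.1 h4) (hx 4)
        have e5 : lam x 5 = 0 := le_antisymm (not_lt.1 h5) (hx 5)
        exact Or.inr (Or.inl ⟨lam x 1, 71, h1, only1 e0 e2 e3 e4 e5⟩)
      · have e1 : lam x 1 = 0 := le_antisymm (not_lt.1 h1) (hx 1)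
        by_cases h4 : 0 < lam x 4
        · exact Or.inl ⟨0, by rw [N_zero]; exact b4 hG ht hu₀ hw hx e0 e1 e2 e3 h4⟩
        have e4 : lam x 4 = 0 := le_antisymm (not_lt.1 h4) (hx 4)
        by_cases h5 : 0 < lam x 5
        · exact Or.inr (Or.inr ⟨lam x 5 / 3, 26, by positivity, only5 e0 e1 e2 e3 e4⟩)
        · exact (zero_lam hG hu e0 e1 e2 e3 e4 (le_antisymm (not_lt.1 h5) (hx 5))).elim
    · rintro x i hP ⟨u, hu⟩
      rcases hP ⟨_, inv' hG hu i⟩ with ⟨k, hk⟩ | ⟨s, k, hs, hk⟩ | ⟨s, k, hs, hk⟩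
      · refine Or.inl ⟨sm i k, ?_⟩
        rw [← rx_N]
        exact works_rx hG i hk
      · refine Or.inr (Or.inl ⟨s, sg i k, hs, ?_⟩)
        rw [← rx_R, ← rx_sc, ← hk, rx_rx]
      · refine Or.inr (Or.inr ⟨s, sm i k, hs, ?_⟩)
        rw [← rx_M, ← rx_sc, ← hk, rx_rx]
  intro q hq
  rcases key q.1 ⟨q.2, hq⟩ with h | ⟨s, k, hs, hk⟩ | ⟨s, k, hs, hk⟩
  · exact Or.inl h
  · refine Or.inr (Or.inl ⟨aR k, ?_⟩)
    rw [hk]
    exact cliqueR hG hs k
  · refine Or.inr (Or.inr ⟨aM k, ?_⟩)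
    rw [hk]
    exact cliqueM hG ht hu₀ hw hs k

/-- 54 vectors serve every set of dual pairs with the symmetries of `E_6`. -/
theorem core (hG : Dual6 G) : ∃ (ι : Type) (_ : Fintype ι), Fintype.card ι ≤ 54 ∧
    ∃ z : ι → Fin 6 → ℝ, ∀ q ∈ G, ∃ i, Works G q.1 (z i) := by
  by_cases hA : ∀ t u, 0 < t → (sc t (R 71), u) ∈ G → 0 < pr u W1
  · refine ⟨Fin 27 ⊕ Fin 27, inferInstance, by simp, Sum.elim N M, fun q hq => ?_⟩
    rcases caseA hG hA q hq with ⟨k, hk⟩ | ⟨k, hk⟩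
    · exact ⟨Sum.inl k, hk⟩
    · exact ⟨Sum.inr k, hk⟩
  · push Not at hA
    obtain ⟨t, u₀, ht, hu₀, hw⟩ := hA
    refine ⟨Fin 27 ⊕ (Fin 17 ⊕ Fin 6), inferInstance, by simp,
      Sum.elim N (Sum.elim (fun c j => ∑ a, R (cR c a) j) (fun c j => ∑ a, M (cM c a) j)), fun q hq => ?_⟩
    rcases caseB hG ht hu₀ hw q hq with ⟨k, hk⟩ | ⟨k, hk⟩ | ⟨k, hk⟩
    · exact ⟨Sum.inl k, hk⟩
    · exact ⟨Sum.inr (Sum.inl k), hk⟩
    · exact ⟨Sum.inr (Sum.inr k), hk⟩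

end Pool.Agent.Lib.MP_5e7226_co.E6X
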