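import Pool.Agent.Lib.MP_5e7226_co.E6X.Data

set_option autoImplicit false

/-! Reflections, orbits, the dominant chamber. -/

namespace Pool.Agent.Lib.MP_5e7226_co.E6X

open Finset

/-- the pairing of dual coordinates and coordinates -/
def pr (u x : Fin 6 → ℝ) : ℝ := ∑ i, u i * x i

/-- the values `⟨x, b_j⟩` -/
def lam (x : Fin 6 → ℝ) : Fin 6 → ℝ := fun j => ∑ k, (C j k : ℝ) * x k

/-- an integer vector as a real vector -/
def cs (a : Fin 6 → ℤ) : Fin 6 → ℝ := fun j => (a j : ℝ)

/-- the roots -/
def R (k : Fin 72) : Fin 6 → ℝ := cs (rt k)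

/-- three times the weights -/
def M (k : Fin 27) : Fin 6 → ℝ := cs (om k)

theorem pr_ru (i : Fin 6) (u x : Fin 6 → ℝ) : pr (ru i u) x = pr u (rx i x) := by
  fin_cases i <;> simp [pr, ru, rx, C, Fin.sum_univ_six] <;> ring

theorem rx_rx (i : Fin 6) (x : Fin 6 → ℝ) : rx i (rx i x) = x := by
  funext j
  fin_cases i <;> fin_cases j <;> simp [rx, C, Fin.sum_univ_six] <;> ring

theorem ru_ru (i : Fin 6) (u : Fin 6 → ℝ) : ru i (ru i u) = u := by
  funext j
  fin_cases i <;> fin_cases j <;> simp [ru, C] <;> ring

theorem lam_rx (i : Fin 6) (x : Fin 6 → ℝ) : lam (rx i x) = ru i (lam x) := by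
  funext j
  fin_cases i <;> fin_cases j <;> simp [lam, ru, rx, C, Fin.sum_univ_six] <;> ring

theorem pr_rx (i : Fin 6) (u x : Fin 6 → ℝ) : pr u (rx i x) = pr (ru i u) x := (pr_ru i u x).symm

theorem rx_cs (i : Fin 6) (a : Fin 6 → ℤ) : rx i (cs a) = cs (rz i a) := by
  funext j
  by_cases h : j = i
  · subst h
    simp only [rx, cs, rz, if_true, Fin.sum_univ_six]
    push_cast
    ring
  · simp only [rx, cs, rz, if_neg h]

theorem rx_R (i : Fin 6) (k : Fin 72) : rx i (R k) = R (sg i k) := by
  unfold R
  rw [rx_cs, rz_rt]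

theorem rx_M (i : Fin 6) (k : Fin 27) : rx i (M k) = M (sm i k) := by
  unfold M
  rw [rx_cs, rz_om]

theorem pr_sr (u : Fin 6 → ℝ) (i : Fin 6) : pr u (R (sr i)) = u i := by
  unfold pr R cs
  rw [Finset.sum_eq_single i]
  · rw [rt_sr, if_pos rfl]
    simp
  · intro j _ hj
    rw [rt_sr, if_neg hj]
    simp
  · intro h
    exact (h (mem_univ _)).elim

theorem up_ind (S : Fin 72 → Prop) (h0 : S 71) (h1 : ∀ k, S (sg (up k) k) → S k) : ∀ k, S k := by
  have key : ∀ n : ℕ, ∀ k : Fin 72, 71 - (k : ℕ) ≤ n → S k := by
    intro n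
    induction n with
    | zero =>
      intro k hk
      have : k = 71 := by
        apply Fin.ext
        have := k.isLt
        change (k : ℕ) = 71
        omega
      rw [this]
      exact h0
    | succ n ih =>
      intro k hk
      by_cases hk71 : k = 71
      · rw [hk71]
        exact h0
      · apply h1
        apply ih
        have h2 : (k : ℕ) < (sg (up k) k : ℕ) := up_lt k hk71
        omega
  exact fun k => key 71 k (by omega)

theorem um_ind (S : Fin 27 → Prop) (h0 : S 26) (h1 : ∀ k, S (sm (um k) k) → S k) : ∀ k, S k := by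
  have key : ∀ n : ℕ, ∀ k : Fin 27, 26 - (k : ℕ) ≤ n → S k := by
    intro n
    induction n with
    | zero =>
      intro k hk
      have : k = 26 := by
        apply Fin.ext
        have := k.isLt
        change (k : ℕ) = 26
        omega
      rw [this]
      exact h0
    | succ n ih =>
      intro k hk
      by_cases hk71 : k = 26
      · rw [hk71]
        exact h0
      · apply h1
        apply ih
        have h2 : (k : ℕ) < (sm (um k) k : ℕ) := um_lt k hk71
        omega
  exact fun k => key 26 k (by omega)

/-- the roots form one orbit -/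
theorem orbR (Q : Fin 72 → Prop) (h : ∀ i k, Q k → Q (sg i k)) (k k' : Fin 72) : Q k → Q k' := by
  have key : ∀ k, (Q k → Q 71) ∧ (Q 71 → Q k) := by
    apply up_ind
    · exact ⟨id, id⟩
    · intro k hk
      refine ⟨fun h1 => hk.1 (h _ _ h1), fun h1 => ?_⟩
      have h2 := h (up k) _ (hk.2 h1)
      rwa [sg_sg] at h2
  exact fun h1 => (key k').2 ((key k).1 h1)

/-- the weights form one orbit -/
theorem orbM (Q : Fin 27 → Prop) (h : ∀ i k, Q k → Q (sm i k)) (k k' : Fin 27) : Q k → Q k' := by
  have key : ∀ k, (Q k → Q 26) ∧ (Q 26 → Q k) := by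
    apply um_ind
    · exact ⟨id, id⟩
    · intro k hk
      refine ⟨fun h1 => hk.1 (h _ _ h1), fun h1 => ?_⟩
      have h2 := h (um k) _ (hk.2 h1)
      rwa [sm_sm] at h2
  exact fun h1 => (key k').2 ((key k).1 h1)

/-- Induction: every vector is moved by simple reflections into the dominant chamber. -/
theorem dom_ind (P : (Fin 6 → ℝ) → Prop) (h0 : ∀ v, (∀ i, 0 ≤ v i) → P v)
    (h1 : ∀ v i, P (ru i v) → P v) : ∀ v, P v := by
  classical
  have key : ∀ n : ℕ, ∀ v : Fin 6 → ℝ,
      ((univ : Finset (Fin 72)).filter fun k => 36 ≤ k ∧ pr v (R k) < 0).card ≤ n → P v := by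
    intro n
    induction n with
    | zero =>
      intro v hv
      apply h0
      intro i
      by_contra hcon
      push Not at hcon
      have h2 : sr i ∈ (univ : Finset (Fin 72)).filter fun k => 36 ≤ k ∧ pr v (R k) < 0 := by
        rw [mem_filter]
        refine ⟨mem_univ _, ?_, ?_⟩
        · fin_cases i <;> decide
        · rw [pr_sr]
          exact hcon
      have h3 := Finset.card_pos.2 ⟨_, h2⟩
      omega
    | succ n ih =>
      intro v hv
      by_cases hd : ∀ i, 0 ≤ v i
      · exact h0 v hd
      · push Not at hd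
        obtain ⟨i, hi⟩ := hd
        apply h1 v i
        apply ih
        have hmem : sr i ∈ (univ : Finset (Fin 72)).filter fun k => 36 ≤ k ∧ pr v (R k) < 0 := by
          rw [mem_filter]
          refine ⟨mem_univ _, ?_, ?_⟩
          · fin_cases i <;> decide
          · rw [pr_sr]
            exact hi
        have hle : ((univ : Finset (Fin 72)).filter fun k => 36 ≤ k ∧ pr (ru i v) (R k) < 0).card ≤
            (((univ : Finset (Fin 72)).filter fun k => 36 ≤ k ∧ pr v (R k) < 0).erase (sr i)).card := by
          apply Finset.card_le_card_of_injOn (sg i)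
          · intro k hk
            rw [Finset.mem_coe, mem_filter] at hk
            obtain ⟨-, hk36, hk0⟩ := hk
            have hne : k ≠ sr i := by
              intro h2
              rw [h2, pr_sr] at hk0
              have h3 : ru i v i = - v i := by
                fin_cases i <;> simp [ru, C] <;> ring
              rw [h3] at hk0
              linarith
            obtain ⟨h2, h3⟩ := sg_pos i k hk36 hne
            rw [Finset.mem_coe, mem_erase, mem_filter]
            refine ⟨h3, mem_univ _, h2, ?_⟩
            rw [pr_ru, rx_R] at hk0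
            exact hk0
          · intro k _ k' _ hkk
            have h2 := congrArg (sg i) hkk
            rwa [sg_sg, sg_sg] at h2
        rw [Finset.card_erase_of_mem hmem] at hle
        omega
  exact fun v => key _ v le_rfl

end Pool.Agent.Lib.MP_5e7226_co.E6X
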