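import Pool.Agent.Lib.MP_5e7226_co.DX.Defs
import Pool.Agent.Lib.MP_5e7226_co.E6X.Orb

set_option autoImplicit false

/-! `E_6`: 54 vectors serve every set of dual pairs. -/

namespace Pool.Agent.Lib.MP_5e7226_co.E6X

open Finset
open Pool.Agent.Lib.MP_5e7226_co.DX (Works)

variable {G : Set ((Fin 6 → ℝ) × (Fin 6 → ℝ))}

theorem one' (hG : Dual6 G) {x u : Fin 6 → ℝ} (h : (x, u) ∈ G) : pr u x = 1 := hG.one _ h

theorem le' (hG : Dual6 G) {x u y w : Fin 6 → ℝ} (h : (x, u) ∈ G) (h' : (y, w) ∈ G) : pr u y ≤ 1 := hG.le _ h _ h'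

theorem inv' (hG : Dual6 G) {x u : Fin 6 → ℝ} (h : (x, u) ∈ G) (i : Fin 6) : (rx i x, ru i u) ∈ G := hG.inv _ h i

theorem works_iff {x z : Fin 6 → ℝ} : Works G x z ↔ ∀ u, (x, u) ∈ G → 0 < pr u z := Iff.rfl

/-- a simple reflection moves the vectors which work -/
theorem works_rx (hG : Dual6 G) {x z : Fin 6 → ℝ} (i : Fin 6) (h : Works G (rx i x) z) : Works G x (rx i z) := by
  intro u hu
  have h1 := h (ru i u) (inv' hG hu i)
  change 0 < pr (ru i u) z at h1
  rw [pr_ru] at h1
  exact h1

/-- the two members of a pair are on the same side of every root -/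
theorem good (hG : Dual6 G) {x u : Fin 6 → ℝ} (h : (x, u) ∈ G) (k : Fin 72) :
    0 ≤ pr (lam x) (R k) * pr u (R k) := by
  have key : ∀ x u, (x, u) ∈ G → 0 ≤ pr (lam x) (R k) * pr u (R k) := by
    refine orbR (fun k => ∀ x u, (x, u) ∈ G → 0 ≤ pr (lam x) (R k) * pr u (R k)) ?_ (sr 0) k ?_
    · intro i k hk x u hxu
      have h1 := hk _ _ (inv' hG hxu i)
      rw [lam_rx, pr_ru, pr_ru, rx_R] at h1
      exact h1
    · intro x u hxu
      rw [pr_sr, pr_sr]
      have h1 := le' hG hxu (inv' hG hxu 0)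
      have h2 := one' hG hxu
      have h3 : pr u (rx 0 x) = pr u x - lam x 0 * u 0 := by
        simp [pr, rx, lam, C, Fin.sum_univ_six]
        ring
      rw [h3, h2] at h1
      linarith
  exact key x u h

theorem ge (hG : Dual6 G) {x u : Fin 6 → ℝ} (h : (x, u) ∈ G) (k : Fin 72) (hk : 0 < pr (lam x) (R k)) :
    0 ≤ pr u (R k) := by
  have h1 := good hG h k
  by_contra hcon
  push Not at hcon
  have h2 := mul_neg_of_pos_of_neg hk hcon
  linarith

/-- three times the first fundamental weight -/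
def W1 : Fin 6 → ℝ := ![4, 3, 5, 6, 4, 2]

/-- the vectors of the first orbit of 27 weights (times 3) are the negatives of the `M k` -/
def N (k : Fin 27) : Fin 6 → ℝ := fun j => - M k j

theorem rx_N (i : Fin 6) (k : Fin 27) : rx i (N k) = N (sm i k) := by
  have h := rx_M i k
  funext j
  have hj := congrFun h j
  unfold N
  rw [← hj]
  by_cases hji : j = i
  · subst hji
    simp only [rx, if_true, Fin.sum_univ_six]
    ring
  · simp only [rx, if_neg hji]

theorem N_zero : N 0 = W1 := by
  funext j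
  fin_cases j <;> simp [N, M, cs, om, W1]

theorem zero_of (hG : Dual6 G) {x u : Fin 6 → ℝ} (h : (x, u) ∈ G) (h0 : ∀ i, u i = 0) : False := by
  have h1 := one' hG h
  unfold pr at h1
  rw [Finset.sum_eq_zero (fun i _ => by rw [h0 i, zero_mul])] at h1
  exact zero_ne_one h1

theorem s0 (hG : Dual6 G) {x : Fin 6 → ℝ} (hx : ∀ i, 0 ≤ lam x i) (h : 0 < lam x 0) : Works G x W1 := by
  rw [works_iff]
  intro u hu
  have x0 := hx 0
  have x1 := hx 1
  have x2 := hx 2
  have x3 := hx 3
  have x4 := hx 4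
  have x5 := hx 5
  have e60 := ge hG hu 60 (by simp [pr, R, cs, rt, Fin.sum_univ_six]; linarith)
  have e51 := ge hG hu 51 (by simp [pr, R, cs, rt, Fin.sum_univ_six]; linarith)
  have e71 := ge hG hu 71 (by simp [pr, R, cs, rt, Fin.sum_univ_six]; linarith)
  have e62 := ge hG hu 62 (by simp [pr, R, cs, rt, Fin.sum_univ_six]; linarith)
  have e67 := ge hG hu 67 (by simp [pr, R, cs, rt, Fin.sum_univ_six]; linarith)
  have e69 := ge hG hu 69 (by simp [pr, R, cs, rt, Fin.sum_univ_six]; linarith)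
  simp [pr, R, cs, rt, Fin.sum_univ_six] at e60 e51 e71 e62 e67 e69
  by_contra hcon
  push Not at hcon
  simp [pr, W1, Fin.sum_univ_six] at hcon
  refine zero_of hG hu fun i => ?_
  fin_cases i
  · change u 0 = 0
    linarith
  · change u 1 = 0
    linarith
  · change u 2 = 0
    linarith
  · change u 3 = 0
    linarith
  · change u 4 = 0
    linarith
  · change u 5 = 0
    linarith

theorem s2 (hG : Dual6 G) {x : Fin 6 → ℝ} (hx : ∀ i, 0 ≤ lam x i) (h : 0 < lam x 2) : Works G x W1 := by
  rw [works_iff]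
  intro u hu
  have x0 := hx 0
  have x1 := hx 1
  have x2 := hx 2
  have x3 := hx 3
  have x4 := hx 4
  have x5 := hx 5
  have e50 := ge hG hu 50 (by simp [pr, R, cs, rt, Fin.sum_univ_six]; linarith)
  have e62 := ge hG hu 62 (by simp [pr, R, cs, rt, Fin.sum_univ_six]; linarith)
  have e55 := ge hG hu 55 (by simp [pr, R, cs, rt, Fin.sum_univ_six]; linarith)
  have e51 := ge hG hu 51 (by simp [pr, R, cs, rt, Fin.sum_univ_six]; linarith)
  have e52 := ge hG hu 52 (by simp [pr, R, cs, rt, Fin.sum_univ_six]; linarith)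
  have e63 := ge hG hu 63 (by simp [pr, R, cs, rt, Fin.sum_univ_six]; linarith)
  simp [pr, R, cs, rt, Fin.sum_univ_six] at e50 e62 e55 e51 e52 e63
  by_contra hcon
  push Not at hcon
  simp [pr, W1, Fin.sum_univ_six] at hcon
  refine zero_of hG hu fun i => ?_
  fin_cases i
  · change u 0 = 0
    linarith
  · change u 1 = 0
    linarith
  · change u 2 = 0
    linarith
  · change u 3 = 0
    linarith
  · change u 4 = 0
    linarith
  · change u 5 = 0
    linarith

theorem s3 (hG : Dual6 G) {x : Fin 6 → ℝ} (hx : ∀ i, 0 ≤ lam x i) (h : 0 < lam x 3) : Works G x W1 := by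
  rw [works_iff]
  intro u hu
  have x0 := hx 0
  have x1 := hx 1
  have x2 := hx 2
  have x3 := hx 3
  have x4 := hx 4
  have x5 := hx 5
  have e56 := ge hG hu 56 (by simp [pr, R, cs, rt, Fin.sum_univ_six]; linarith)
  have e57 := ge hG hu 57 (by simp [pr, R, cs, rt, Fin.sum_univ_six]; linarith)
  have e38 := ge hG hu 38 (by simp [pr, R, cs, rt, Fin.sum_univ_six]; linarith)
  have e60 := ge hG hu 60 (by simp [pr, R, cs, rt, Fin.sum_univ_six]; linarith)
  have e66 := ge hG hu 66 (by simp [pr, R, cs, rt, Fin.sum_univ_six]; linarith)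
  have e59 := ge hG hu 59 (by simp [pr, R, cs, rt, Fin.sum_univ_six]; linarith)
  simp [pr, R, cs, rt, Fin.sum_univ_six] at e56 e57 e38 e60 e66 e59
  by_contra hcon
  push Not at hcon
  simp [pr, W1, Fin.sum_univ_six] at hcon
  refine zero_of hG hu fun i => ?_
  fin_cases i
  · change u 0 = 0
    linarith
  · change u 1 = 0
    linarith
  · change u 2 = 0
    linarith
  · change u 3 = 0
    linarith
  · change u 4 = 0
    linarith
  · change u 5 = 0
    linarith

theorem s14 (hG : Dual6 G) {x : Fin 6 → ℝ} (hx : ∀ i, 0 ≤ lam x i) (h : 0 < lam x 1) (h2 : 0 < lam x 4) : Works G x W1 := by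
  rw [works_iff]
  intro u hu
  have x0 := hx 0
  have x1 := hx 1
  have x2 := hx 2
  have x3 := hx 3
  have x4 := hx 4
  have x5 := hx 5
  have e59 := ge hG hu 59 (by simp [pr, R, cs, rt, Fin.sum_univ_six]; linarith)
  have e40 := ge hG hu 40 (by simp [pr, R, cs, rt, Fin.sum_univ_six]; linarith)
  have e52 := ge hG hu 52 (by simp [pr, R, cs, rt, Fin.sum_univ_six]; linarith)
  have e56 := ge hG hu 56 (by simp [pr, R, cs, rt, Fin.sum_univ_six]; linarith)
  have e55 := ge hG hu 55 (by simp [pr, R, cs, rt, Fin.sum_univ_six]; linarith)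
  have e63 := ge hG hu 63 (by simp [pr, R, cs, rt, Fin.sum_univ_six]; linarith)
  simp [pr, R, cs, rt, Fin.sum_univ_six] at e59 e40 e52 e56 e55 e63
  by_contra hcon
  push Not at hcon
  simp [pr, W1, Fin.sum_univ_six] at hcon
  refine zero_of hG hu fun i => ?_
  fin_cases i
  · change u 0 = 0
    linarith
  · change u 1 = 0
    linarith
  · change u 2 = 0
    linarith
  · change u 3 = 0
    linarith
  · change u 4 = 0
    linarith
  · change u 5 = 0
    linarith

theorem s15 (hG : Dual6 G) {x : Fin 6 → ℝ} (hx : ∀ i, 0 ≤ lam x i) (h : 0 < lam x 1) (h2 : 0 < lam x 5) : Works G x W1 := by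
  rw [works_iff]
  intro u hu
  have x0 := hx 0
  have x1 := hx 1
  have x2 := hx 2
  have x3 := hx 3
  have x4 := hx 4
  have x5 := hx 5
  have e56 := ge hG hu 56 (by simp [pr, R, cs, rt, Fin.sum_univ_six]; linarith)
  have e60 := ge hG hu 60 (by simp [pr, R, cs, rt, Fin.sum_univ_six]; linarith)
  have e63 := ge hG hu 63 (by simp [pr, R, cs, rt, Fin.sum_univ_six]; linarith)
  have e66 := ge hG hu 66 (by simp [pr, R, cs, rt, Fin.sum_univ_six]; linarith)
  have e53 := ge hG hu 53 (by simp [pr, R, cs, rt, Fin.sum_univ_six]; linarith)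
  have e59 := ge hG hu 59 (by simp [pr, R, cs, rt, Fin.sum_univ_six]; linarith)
  simp [pr, R, cs, rt, Fin.sum_univ_six] at e56 e60 e63 e66 e53 e59
  by_contra hcon
  push Not at hcon
  simp [pr, W1, Fin.sum_univ_six] at hcon
  refine zero_of hG hu fun i => ?_
  fin_cases i
  · change u 0 = 0
    linarith
  · change u 1 = 0
    linarith
  · change u 2 = 0
    linarith
  · change u 3 = 0
    linarith
  · change u 4 = 0
    linarith
  · change u 5 = 0
    linarith

theorem m5 (hG : Dual6 G) {x : Fin 6 → ℝ} (hx : ∀ i, 0 ≤ lam x i) (h : 0 < lam x 5) : Works G x (M 26) := by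
  rw [works_iff]
  intro u hu
  have x0 := hx 0
  have x1 := hx 1
  have x2 := hx 2
  have x3 := hx 3
  have x4 := hx 4
  have x5 := hx 5
  have e65 := ge hG hu 65 (by simp [pr, R, cs, rt, Fin.sum_univ_six]; linarith)
  have e64 := ge hG hu 64 (by simp [pr, R, cs, rt, Fin.sum_univ_six]; linarith)
  have e62 := ge hG hu 62 (by simp [pr, R, cs, rt, Fin.sum_univ_six]; linarith)
  have e68 := ge hG hu 68 (by simp [pr, R, cs, rt, Fin.sum_univ_six]; linarith)
  have e36 := ge hG hu 36 (by simp [pr, R, cs, rt, Fin.sum_univ_six]; linarith)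
  have e59 := ge hG hu 59 (by simp [pr, R, cs, rt, Fin.sum_univ_six]; linarith)
  simp [pr, R, cs, rt, Fin.sum_univ_six] at e65 e64 e62 e68 e36 e59
  by_contra hcon
  push Not at hcon
  simp [pr, M, cs, om, Fin.sum_univ_six] at hcon
  refine zero_of hG hu fun i => ?_
  fin_cases i
  · change u 0 = 0
    linarith
  · change u 1 = 0
    linarith
  · change u 2 = 0
    linarith
  · change u 3 = 0
    linarith
  · change u 4 = 0
    linarith
  · change u 5 = 0
    linarith

theorem m4 (hG : Dual6 G) {x : Fin 6 → ℝ} (hx : ∀ i, 0 ≤ lam x i) (h : 0 < lam x 4) : Works G x (M 26) := by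
  rw [works_iff]
  intro u hu
  have x0 := hx 0
  have x1 := hx 1
  have x2 := hx 2
  have x3 := hx 3
  have x4 := hx 4
  have x5 := hx 5
  have e52 := ge hG hu 52 (by simp [pr, R, cs, rt, Fin.sum_univ_six]; linarith)
  have e70 := ge hG hu 70 (by simp [pr, R, cs, rt, Fin.sum_univ_six]; linarith)
  have e49 := ge hG hu 49 (by simp [pr, R, cs, rt, Fin.sum_univ_six]; linarith)
  have e62 := ge hG hu 62 (by simp [pr, R, cs, rt, Fin.sum_univ_six]; linarith)
  have e61 := ge hG hu 61 (by simp [pr, R, cs, rt, Fin.sum_univ_six]; linarith)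
  have e47 := ge hG hu 47 (by simp [pr, R, cs, rt, Fin.sum_univ_six]; linarith)
  simp [pr, R, cs, rt, Fin.sum_univ_six] at e52 e70 e49 e62 e61 e47
  by_contra hcon
  push Not at hcon
  simp [pr, M, cs, om, Fin.sum_univ_six] at hcon
  refine zero_of hG hu fun i => ?_
  fin_cases i
  · change u 0 = 0
    linarith
  · change u 1 = 0
    linarith
  · change u 2 = 0
    linarith
  · change u 3 = 0
    linarith
  · change u 4 = 0
    linarith
  · change u 5 = 0
    linarith

end Pool.Agent.Lib.MP_5e7226_co.E6X
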