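import Pool.Agent.Lib.MP_5e7226_co.E6X.Defs

set_option autoImplicit false

/-! The root system `E_6`: tables, checked by `decide`. -/

namespace Pool.Agent.Lib.MP_5e7226_co.E6X

open Finset

/-- the simple reflection in the coordinates of the simple roots -/
def rz (i : Fin 6) (a : Fin 6 → ℤ) : Fin 6 → ℤ := fun j =>
  if j = i then a j - (C i 0 * a 0 + C i 1 * a 1 + C i 2 * a 2 + C i 3 * a 3 + C i 4 * a 4 + C i 5 * a 5) else a j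

/-- the 72 roots, by height -/
def rt : Fin 72 → Fin 6 → ℤ := ![![-1, -2, -2, -3, -2, -1],
  ![-1, -1, -2, -3, -2, -1],
  ![-1, -1, -2, -2, -2, -1],
  ![-1, -1, -2, -2, -1, -1],
  ![-1, -1, -1, -2, -2, -1],
  ![-1, -1, -2, -2, -1, 0],
  ![-1, -1, -1, -2, -1, -1],
  ![0, -1, -1, -2, -2, -1],
  ![-1, -1, -1, -2, -1, 0],
  ![-1, -1, -1, -1, -1, -1],
  ![0, -1, -1, -2, -1, -1],
  ![-1, -1, -1, -1, -1, 0],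
  ![-1, 0, -1, -1, -1, -1],
  ![0, -1, -1, -2, -1, 0],
  ![0, -1, -1, -1, -1, -1],
  ![-1, -1, -1, -1, 0, 0],
  ![-1, 0, -1, -1, -1, 0],
  ![0, -1, -1, -1, -1, 0],
  ![0, -1, 0, -1, -1, -1],
  ![0, 0, -1, -1, -1, -1],
  ![-1, 0, -1, -1, 0, 0],
  ![0, -1, -1, -1, 0, 0],
  ![0, -1, 0, -1, -1, 0],
  ![0, 0, -1, -1, -1, 0],
  ![0, 0, 0, -1, -1, -1],
  ![-1, 0, -1, 0, 0, 0],
  ![0, -1, 0, -1, 0, 0],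
  ![0, 0, -1, -1, 0, 0],
  ![0, 0, 0, -1, -1, 0],
  ![0, 0, 0, 0, -1, -1],
  ![-1, 0, 0, 0, 0, 0],
  ![0, -1, 0, 0, 0, 0],
  ![0, 0, -1, 0, 0, 0],
  ![0, 0, 0, -1, 0, 0],
  ![0, 0, 0, 0, -1, 0],
  ![0, 0, 0, 0, 0, -1],
  ![0, 0, 0, 0, 0, 1],
  ![0, 0, 0, 0, 1, 0],
  ![0, 0, 0, 1, 0, 0],
  ![0, 0, 1, 0, 0, 0],
  ![0, 1, 0, 0, 0, 0],
  ![1, 0, 0, 0, 0, 0],
  ![0, 0, 0, 0, 1, 1],
  ![0, 0, 0, 1, 1, 0],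
  ![0, 0, 1, 1, 0, 0],
  ![0, 1, 0, 1, 0, 0],
  ![1, 0, 1, 0, 0, 0],
  ![0, 0, 0, 1, 1, 1],
  ![0, 0, 1, 1, 1, 0],
  ![0, 1, 0, 1, 1, 0],
  ![0, 1, 1, 1, 0, 0],
  ![1, 0, 1, 1, 0, 0],
  ![0, 0, 1, 1, 1, 1],
  ![0, 1, 0, 1, 1, 1],
  ![0, 1, 1, 1, 1, 0],
  ![1, 0, 1, 1, 1, 0],
  ![1, 1, 1, 1, 0, 0],
  ![0, 1, 1, 1, 1, 1],
  ![0, 1, 1, 2, 1, 0],
  ![1, 0, 1, 1, 1, 1],
  ![1, 1, 1, 1, 1, 0],
  ![0, 1, 1, 2, 1, 1],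
  ![1, 1, 1, 1, 1, 1],
  ![1, 1, 1, 2, 1, 0],
  ![0, 1, 1, 2, 2, 1],
  ![1, 1, 1, 2, 1, 1],
  ![1, 1, 2, 2, 1, 0],
  ![1, 1, 1, 2, 2, 1],
  ![1, 1, 2, 2, 1, 1],
  ![1, 1, 2, 2, 2, 1],
  ![1, 1, 2, 3, 2, 1],
  ![1, 2, 2, 3, 2, 1]]

/-- three times the 27 weights of the orbit of the last fundamental weight, by height -/
def om : Fin 27 → Fin 6 → ℤ := ![![-4, -3, -5, -6, -4, -2],
  ![-1, -3, -5, -6, -4, -2],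
  ![-1, -3, -2, -6, -4, -2],
  ![-1, -3, -2, -3, -4, -2],
  ![-1, -3, -2, -3, -1, -2],
  ![-1, 0, -2, -3, -4, -2],
  ![-1, -3, -2, -3, -1, 1],
  ![-1, 0, -2, -3, -1, -2],
  ![-1, 0, -2, -3, -1, 1],
  ![-1, 0, -2, 0, -1, -2],
  ![-1, 0, -2, 0, -1, 1],
  ![-1, 0, 1, 0, -1, -2],
  ![-1, 0, -2, 0, 2, 1],
  ![-1, 0, 1, 0, -1, 1],
  ![2, 0, 1, 0, -1, -2],
  ![-1, 0, 1, 0, 2, 1],
  ![2, 0, 1, 0, -1, 1],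
  ![-1, 0, 1, 3, 2, 1],
  ![2, 0, 1, 0, 2, 1],
  ![-1, 3, 1, 3, 2, 1],
  ![2, 0, 1, 3, 2, 1],
  ![2, 0, 4, 3, 2, 1],
  ![2, 3, 1, 3, 2, 1],
  ![2, 3, 4, 3, 2, 1],
  ![2, 3, 4, 6, 2, 1],
  ![2, 3, 4, 6, 5, 1],
  ![2, 3, 4, 6, 5, 4]]

def sg : Fin 6 → Fin 72 → Fin 72 := ![![0, 1, 2, 3, 7, 5, 10, 4, 13, 14, 6, 17, 19, 8, 9, 21, 23, 11, 18, 12, 27, 15, 22, 16, 24, 32, 26, 20, 28, 29, 41, 31, 25, 33, 34, 35, 36, 37, 38, 46, 40, 30, 42, 43, 51, 45, 39, 47, 55, 49, 56, 44, 59, 53, 60, 48, 50, 62, 63, 52, 54, 65, 57, 58, 67, 61, 66, 64, 68, 69, 70, 71],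
  ![1, 0, 2, 3, 4, 5, 6, 7, 8, 12, 10, 16, 9, 13, 19, 20, 11, 23, 24, 14, 15, 27, 28, 17, 18, 25, 33, 21, 22, 29, 30, 40, 32, 26, 34, 35, 36, 37, 45, 39, 31, 41, 42, 49, 50, 38, 46, 53, 54, 43, 44, 56, 57, 47, 48, 60, 51, 52, 58, 62, 55, 61, 59, 63, 64, 65, 66, 67, 68, 69, 71, 70],
  ![0, 1, 4, 6, 2, 8, 3, 7, 5, 9, 10, 11, 12, 13, 18, 15, 16, 22, 14, 24, 20, 26, 17, 28, 19, 30, 21, 33, 23, 29, 25, 31, 39, 27, 34, 35, 36, 37, 44, 32, 40, 46, 42, 48, 38, 50, 41, 52, 43, 54, 45, 51, 47, 57, 49, 55, 56, 53, 58, 59, 60, 61, 62, 66, 64, 68, 63, 69, 65, 67, 70, 71],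
  ![0, 2, 1, 3, 4, 5, 9, 7, 11, 6, 14, 8, 12, 17, 10, 15, 16, 13, 18, 19, 25, 21, 22, 23, 29, 20, 31, 32, 34, 24, 30, 26, 27, 38, 28, 35, 36, 43, 33, 44, 45, 41, 47, 37, 39, 40, 51, 42, 48, 49, 50, 46, 52, 53, 58, 55, 56, 61, 54, 59, 63, 57, 65, 60, 64, 62, 66, 67, 68, 70, 69, 71],
  ![0, 1, 3, 2, 6, 5, 4, 10, 8, 9, 7, 15, 12, 13, 14, 11, 20, 21, 18, 19, 16, 17, 26, 27, 24, 25, 22, 23, 33, 35, 30, 31, 32, 28, 37, 29, 42, 34, 43, 39, 40, 41, 36, 38, 48, 49, 46, 47, 44, 45, 54, 55, 52, 53, 50, 51, 60, 57, 58, 59, 56, 64, 62, 63, 61, 67, 66, 65, 69, 68, 70, 71],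
  ![0, 1, 2, 5, 4, 3, 8, 7, 6, 11, 13, 9, 16, 10, 17, 15, 12, 14, 22, 23, 20, 21, 18, 19, 28, 25, 26, 27, 24, 34, 30, 31, 32, 33, 29, 36, 35, 42, 38, 39, 40, 41, 37, 47, 44, 45, 46, 43, 52, 53, 50, 51, 48, 49, 57, 59, 56, 54, 61, 55, 62, 58, 60, 65, 64, 63, 68, 67, 66, 69, 70, 71]]

def sm : Fin 6 → Fin 27 → Fin 27 := ![![1, 0, 2, 3, 4, 5, 6, 7, 8, 9, 10, 14, 12, 16, 11, 18, 13, 20, 15, 22, 17, 21, 19, 23, 24, 25, 26],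
  ![0, 1, 2, 5, 7, 3, 8, 4, 6, 9, 10, 11, 12, 13, 14, 15, 16, 19, 18, 17, 22, 23, 20, 21, 24, 25, 26],
  ![0, 2, 1, 3, 4, 5, 6, 7, 8, 11, 13, 9, 15, 10, 14, 12, 16, 17, 18, 19, 21, 20, 23, 22, 24, 25, 26],
  ![0, 1, 3, 2, 4, 5, 6, 9, 10, 7, 8, 11, 12, 13, 14, 17, 16, 15, 20, 19, 18, 21, 22, 24, 23, 25, 26],
  ![0, 1, 2, 4, 3, 7, 6, 5, 8, 9, 12, 11, 10, 15, 14, 13, 18, 17, 16, 19, 20, 21, 22, 23, 25, 24, 26],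
  ![0, 1, 2, 3, 6, 5, 4, 8, 7, 10, 9, 13, 12, 11, 16, 15, 14, 17, 18, 19, 20, 21, 22, 23, 24, 26, 25]]

def up : Fin 72 → Fin 6 := ![1, 3, 2, 2, 0, 2, 0, 4, 0, 0, 3, 0, 0, 3, 1, 0, 0, 1, 1, 2, 0, 1, 1, 2, 3, 0, 1, 2, 3, 4, 0, 1, 2, 3, 4, 5, 4, 3, 1, 0, 3, 2, 3, 1, 0, 2, 3, 1, 0, 2, 0, 1, 0, 2, 0, 1, 4, 0, 0, 1, 3, 0, 3, 2, 0, 2, 5, 2, 4, 3, 1, 0]

def um : Fin 27 → Fin 6 := ![0, 2, 3, 1, 1, 4, 1, 3, 3, 2, 2, 0, 2, 0, 5, 0, 4, 0, 3, 0, 1, 1, 2, 3, 4, 5, 0]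

/-- sets of roots with pairwise inner product 1 -/
def cR : Fin 17 → Fin 5 → Fin 72 := ![![13, 41, 46, 59, 62],
  ![3, 5, 21, 27, 32],
  ![9, 29, 38, 44, 58],
  ![19, 35, 49, 60, 63],
  ![39, 52, 57, 68, 69],
  ![0, 11, 17, 22, 31],
  ![12, 24, 40, 50, 54],
  ![43, 47, 64, 67, 70],
  ![23, 34, 45, 56, 65],
  ![1, 4, 8, 16, 28],
  ![6, 10, 26, 33, 37],
  ![14, 18, 31, 51, 55],
  ![15, 20, 25, 30, 64],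
  ![5, 36, 42, 47, 53],
  ![50, 57, 61, 68, 71],
  ![44, 48, 58, 66, 70],
  ![2, 7, 14, 19, 29]]

/-- sets of weights whose differences are roots -/
def cM : Fin 6 → Fin 6 → Fin 27 := ![![1, 2, 3, 5, 14, 16],
  ![0, 7, 8, 12, 15, 19],
  ![17, 20, 21, 24, 25, 26],
  ![2, 5, 11, 13, 23, 2],
  ![1, 5, 9, 10, 22, 1],
  ![1, 4, 6, 12, 18, 20]]

def aR : Fin 72 → Fin 17 := ![5, 9, 16, 1, 9, 1, 10, 16, 9, 2, 10, 5, 6, 0, 11, 12, 9, 5, 11, 3, 12, 1, 5, 8, 6, 12, 10, 1, 9, 2, 12, 5, 1, 10, 8, 3, 13, 10, 2, 4, 6, 0, 13, 7, 2, 8, 0, 7, 15, 3, 6, 11, 4, 13, 6, 11, 8, 4, 2, 0, 3, 14, 0, 3, 7, 8, 15, 7, 4, 4, 7, 14]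

def aM : Fin 27 → Fin 6 := ![1, 0, 0, 0, 5, 0, 5, 1, 1, 4, 4, 3, 1, 3, 0, 1, 0, 2, 5, 1, 2, 2, 4, 3, 2, 2, 2]

/-- the roots which are the differences of the weights of a set `cM c` -/
def dM : Fin 6 → Fin 6 → Fin 6 → Fin 72 := ![![![0, 32, 27, 21, 5, 3], ![39, 0, 33, 26, 8, 6], ![44, 38, 0, 31, 11, 9], ![50, 45, 40, 0, 16, 12], ![66, 63, 60, 55, 0, 35], ![68, 65, 62, 59, 36, 0]],
  ![![0, 11, 9, 4, 2, 0], ![60, 0, 35, 24, 19, 10], ![62, 36, 0, 28, 23, 13], ![67, 47, 43, 0, 32, 21], ![69, 52, 48, 39, 0, 26], ![71, 61, 58, 50, 45, 0]],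
  ![![0, 30, 25, 15, 11, 9], ![41, 0, 32, 21, 17, 14], ![46, 39, 0, 26, 22, 18], ![56, 50, 45, 0, 34, 29], ![60, 54, 49, 37, 0, 35], ![62, 57, 53, 42, 36, 0]],
  ![![0, 26, 13, 10, 0, 0], ![45, 0, 23, 19, 2, 45], ![58, 48, 0, 35, 9, 58], ![61, 52, 36, 0, 11, 61], ![71, 69, 62, 60, 0, 71], ![0, 26, 13, 10, 0, 0]],
  ![![0, 21, 13, 10, 0, 0], ![50, 0, 28, 24, 4, 50], ![58, 43, 0, 35, 9, 58], ![61, 47, 36, 0, 11, 61], ![71, 67, 62, 60, 0, 71], ![0, 21, 13, 10, 0, 0]],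
  ![![0, 23, 19, 7, 2, 1], ![48, 0, 35, 18, 9, 6], ![52, 36, 0, 22, 11, 8], ![64, 53, 49, 0, 25, 20], ![69, 62, 60, 46, 0, 33], ![70, 65, 63, 51, 38, 0]]]

/-- the simple roots -/
def sr : Fin 6 → Fin 72 := ![41, 40, 39, 38, 37, 36]

/-- the inner product of two roots -/
def ipz (a b : Fin 6 → ℤ) : ℤ :=
  a 0 * (2 * b 0 - b 2) + a 1 * (2 * b 1 - b 3) + a 2 * (2 * b 2 - b 0 - b 3) +
    a 3 * (2 * b 3 - b 1 - b 2 - b 4) + a 4 * (2 * b 4 - b 3 - b 5) + a 5 * (2 * b 5 - b 4)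

set_option maxRecDepth 100000

theorem rz_rt : ∀ i k, rz i (rt k) = rt (sg i k) := by decide

theorem rz_om : ∀ i k, rz i (om k) = om (sm i k) := by decide

theorem sg_sg : ∀ i k, sg i (sg i k) = k := by decide

theorem sm_sm : ∀ i k, sm i (sm i k) = k := by decide

theorem up_lt : ∀ k : Fin 72, k ≠ 71 → k < sg (up k) k := by decide

theorem um_lt : ∀ k : Fin 27, k ≠ 26 → k < sm (um k) k := by decide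

theorem rt_sr : ∀ i j, rt (sr i) j = if j = i then 1 else 0 := by decide

theorem sg_pos : ∀ i k, 36 ≤ k → k ≠ sr i → 36 ≤ sg i k ∧ sg i k ≠ sr i := by decide

theorem om_le : ∀ k j, om k j ≤ om 26 j := by decide

theorem aR_mem : ∀ k, ∃ a, cR (aR k) a = k := by decide

theorem aM_mem : ∀ k, ∃ a, cM (aM k) a = k := by decide

theorem cR_ip : ∀ c a b, a ≠ b → ipz (rt (cR c a)) (rt (cR c b)) = 1 := by decide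

theorem cM_sub : ∀ c a b, cM c a = cM c b ∨
    ∀ j, om (cM c a) j - om (cM c b) j = 3 * rt (dM c a b) j := by decide

end Pool.Agent.Lib.MP_5e7226_co.E6X
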