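import Mathlib

set_option autoImplicit false

/-! The reflection group `E_6`: definitions (Bourbaki numbering, indices `0..5`). -/

namespace Pool.Agent.Lib.MP_5e7226_co.E6X

open Finset

/-- the Cartan matrix of `E_6` -/
def C : Fin 6 → Fin 6 → ℤ := ![![2, 0, -1, 0, 0, 0], ![0, 2, 0, -1, 0, 0], ![-1, 0, 2, -1, 0, 0],
  ![0, -1, -1, 2, -1, 0], ![0, 0, 0, -1, 2, -1], ![0, 0, 0, 0, -1, 2]]

/-- the simple reflection `b_j ↦ b_j - C_ij b_i`, in the coordinates of the basis `b` -/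
def rx (i : Fin 6) (x : Fin 6 → ℝ) : Fin 6 → ℝ := fun j =>
  if j = i then x j - ∑ k, (C i k : ℝ) * x k else x j

/-- the same reflection in the dual coordinates (the values on the basis `b`) -/
def ru (i : Fin 6) (u : Fin 6 → ℝ) : Fin 6 → ℝ := fun j => u j - (C i j : ℝ) * u i

/-- A set of dual pairs, invariant under the simple reflections of `E_6`. -/
structure Dual6 (G : Set ((Fin 6 → ℝ) × (Fin 6 → ℝ))) : Prop where
  one : ∀ p ∈ G, ∑ i, p.2 i * p.1 i = 1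
  le : ∀ p ∈ G, ∀ q ∈ G, ∑ i, p.2 i * q.1 i ≤ 1
  inv : ∀ p ∈ G, ∀ i, (rx i p.1, ru i p.2) ∈ G

end Pool.Agent.Lib.MP_5e7226_co.E6X
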