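import Pool.Agent.Lib.MP_5e7226_co.HX.Geo
import Pool.Agent.Lib.MP_5e7226_co.E6X.Defs

set_option autoImplicit false

/-! Glue for reflection groups given by a matrix `C`: the maps `s_i(b_j) = b_j - c_ij b_i`. -/

namespace Pool.Agent.Lib.MP_5e7226_co.E6X

open Finset
open Pool.Agent.Lib.MP_5e7226_co.DX (co fu GK swp Works pairing sum_co co_sum)
open Pool.Agent.Lib.MP_5e7226_co.HX (Body compact_GK one_GK le_GK illum_dirs sep_of_works)

variable {d : ℕ}

/-- The reflection `s_i` in the coordinates with respect to the basis. -/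
def sx (C : Matrix (Fin d) (Fin d) ℝ) (i : Fin d) (x : Fin d → ℝ) : Fin d → ℝ :=
  fun j => x j - if j = i then ∑ k, C i k * x k else 0

/-- The reflection `s_i` on the values of a functional at the basis. -/
def su (C : Matrix (Fin d) (Fin d) ℝ) (i : Fin d) (u : Fin d → ℝ) : Fin d → ℝ :=
  fun j => u j - C i j * u i

/-- A set of dual pairs with the symmetries `s_i`. -/
structure RDual (C : Matrix (Fin d) (Fin d) ℝ) (G : Set ((Fin d → ℝ) × (Fin d → ℝ))) : Prop where
  compact : IsCompact G
  one : ∀ p ∈ G, ∑ i, p.2 i * p.1 i = 1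
  le : ∀ p ∈ G, ∀ q ∈ G, ∑ i, p.2 i * q.1 i ≤ 1
  inv : ∀ p ∈ G, ∀ i, (sx C i p.1, su C i p.2) ∈ G

/-- The body is mapped into itself by the maps `s_i(b_j) = b_j - c_ij b_i` about `o`. -/
def RSym (C : Matrix (Fin d) (Fin d) ℝ) (b : Module.Basis (Fin d) ℝ (EuclideanSpace ℝ (Fin d)))
    (o : EuclideanSpace ℝ (Fin d)) (K : Set (EuclideanSpace ℝ (Fin d))) : Prop :=
  ∀ i, ∀ x : Fin d → ℝ, o + ∑ j, x j • b j ∈ K → o + ∑ j, x j • (b j - C i j • b i) ∈ K

theorem sum_sx (C : Matrix (Fin d) (Fin d) ℝ) (b : Module.Basis (Fin d) ℝ (EuclideanSpace ℝ (Fin d)))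
    (i : Fin d) (x : Fin d → ℝ) :
    ∑ j, x j • (b j - C i j • b i) = ∑ j, sx C i x j • b j := by
  have h1 : ∑ j, sx C i x j • b j = ∑ j, x j • b j - (∑ k, C i k * x k) • b i := by
    have : ∀ j, sx C i x j • b j = x j • b j - (if j = i then (∑ k, C i k * x k) • b i else 0) := by
      intro j
      unfold sx
      split_ifs with h
      · subst h
        rw [sub_smul]
      · simp
    rw [sum_congr rfl fun j _ => this j, sum_sub_distrib]
    simp
  rw [h1, sum_smul, ← sum_sub_distrib]
  refine sum_congr rfl fun j _ => ?_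
  rw [smul_sub, smul_smul, mul_comm]

/-- `⟨s_i u, x⟩ = ⟨u, s_i x⟩`. -/
theorem pair_s (C : Matrix (Fin d) (Fin d) ℝ) (i : Fin d) (x u : Fin d → ℝ) :
    ∑ j, su C i u j * x j = ∑ j, u j * sx C i x j := by
  have h1 : ∑ j, su C i u j * x j = ∑ j, u j * x j - u i * ∑ k, C i k * x k := by
    rw [mul_sum, ← sum_sub_distrib]
    refine sum_congr rfl fun j _ => ?_
    unfold su
    ring
  have h2 : ∑ j, u j * sx C i x j = ∑ j, u j * x j - u i * ∑ k, C i k * x k := by
    have : ∀ j, u j * sx C i x j = u j * x j - (if j = i then u i * ∑ k, C i k * x k else 0) := by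
      intro j
      unfold sx
      split_ifs with h
      · subst h
        ring
      · ring
    rw [sum_congr rfl fun j _ => this j, sum_sub_distrib]
    simp
  rw [h1, h2]

theorem sx_sx {C : Matrix (Fin d) (Fin d) ℝ} (i : Fin d) (hC : C i i = 2) (x : Fin d → ℝ) :
    sx C i (sx C i x) = x := by
  have h1 : ∑ k, C i k * sx C i x k = - ∑ k, C i k * x k := by
    have : ∀ k, C i k * sx C i x k = C i k * x k - (if k = i then 2 * ∑ k, C i k * x k else 0) := by
      intro k
      unfold sx
      split_ifs with h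
      · subst h
        rw [hC]
        ring
      · ring
    rw [sum_congr rfl fun j _ => this j, sum_sub_distrib]
    simp only [sum_ite_eq', mem_univ, if_true]
    ring
  funext j
  unfold sx at h1 ⊢
  by_cases h : j = i
  · simp only [h, if_true] at h1 ⊢
    rw [h1]
    ring
  · simp only [h, if_false]
    ring

theorem mem_coord {b : Module.Basis (Fin d) ℝ (EuclideanSpace ℝ (Fin d))} {o : EuclideanSpace ℝ (Fin d)}
    {K : Set (EuclideanSpace ℝ (Fin d))} {p : EuclideanSpace ℝ (Fin d)} (hp : p ∈ K) :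
    o + ∑ j, co b o p j • b j ∈ K := by
  rw [sum_co, add_sub_cancel]
  exact hp

/-- The linear map `s_i`. -/
noncomputable def sl (C : Matrix (Fin d) (Fin d) ℝ) (b : Module.Basis (Fin d) ℝ (EuclideanSpace ℝ (Fin d)))
    (i : Fin d) : EuclideanSpace ℝ (Fin d) →L[ℝ] EuclideanSpace ℝ (Fin d) :=
  LinearMap.toContinuousLinearMap (b.constr ℝ fun j => b j - C i j • b i)

theorem sl_basis (C : Matrix (Fin d) (Fin d) ℝ) (b : Module.Basis (Fin d) ℝ (EuclideanSpace ℝ (Fin d)))
    (i j : Fin d) : sl C b i (b j) = b j - C i j • b i := by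
  unfold sl
  rw [LinearMap.coe_toContinuousLinearMap', Module.Basis.constr_basis]

theorem sl_sub (C : Matrix (Fin d) (Fin d) ℝ) (b : Module.Basis (Fin d) ℝ (EuclideanSpace ℝ (Fin d)))
    (i : Fin d) (o p : EuclideanSpace ℝ (Fin d)) :
    sl C b i (p - o) = ∑ j, sx C i (co b o p) j • b j := by
  rw [← sum_sx, ← sum_co b o p, map_sum]
  refine sum_congr rfl fun j _ => ?_
  rw [map_smul, sl_basis]

theorem rdual_GK {C : Matrix (Fin d) (Fin d) ℝ} (hC : ∀ i, C i i = 2)
    {b : Module.Basis (Fin d) ℝ (EuclideanSpace ℝ (Fin d))} {o : EuclideanSpace ℝ (Fin d)}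
    {K : Set (EuclideanSpace ℝ (Fin d))} (hK : Body o K) (hs : RSym C b o K) : RDual C (GK b o K) := by
  refine ⟨compact_GK b hK, one_GK b, ?_, ?_⟩
  · intro p hp q hq
    have := le_GK (b := b) (o := o) (K := K) (A := fun x => x) (fun p hp => mem_coord hp) p hp q hq
    exact this
  · rintro _ ⟨p, hp, f, hf, h1, rfl⟩ i
    have hp' : o + ∑ j, sx C i (co b o p) j • b j ∈ K := by
      rw [← sum_sx]
      exact hs i _ (mem_coord hp)
    refine ⟨o + ∑ j, sx C i (co b o p) j • b j, hp', f.comp (sl C b i), ?_, ?_, ?_⟩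
    · intro y hy
      rw [← map_sub]
      have h2 := hf _ (hs i _ (mem_coord (b := b) (o := o) hy))
      rw [sum_sx, ← sl_sub, ← map_sub, add_sub_cancel_left] at h2
      exact h2
    · rw [← map_sub, add_sub_cancel_left, ContinuousLinearMap.comp_apply]
      have h3 : sl C b i (∑ j, sx C i (co b o p) j • b j) = p - o := by
        have h4 := sl_sub C b i o (o + ∑ j, sx C i (co b o p) j • b j)
        rw [co_sum, sx_sx i (hC i), add_sub_cancel_left] at h4
        rw [h4, sum_co]
      rw [h3, map_sub]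
      exact h1
    · rw [Prod.mk.injEq]
      refine ⟨(co_sum b o _).symm, ?_⟩
      funext j
      simp only [fu, su, ContinuousLinearMap.comp_apply, sl_basis, map_sub, map_smul, smul_eq_mul]

/-- The word `w` in the reflections. -/
def act (C : Matrix (Fin d) (Fin d) ℝ) (w : List (Fin d)) (x : Fin d → ℝ) : Fin d → ℝ :=
  w.foldr (fun i y => sx C i y) x

theorem act_mem {C : Matrix (Fin d) (Fin d) ℝ} {b : Module.Basis (Fin d) ℝ (EuclideanSpace ℝ (Fin d))}
    {o : EuclideanSpace ℝ (Fin d)} {K : Set (EuclideanSpace ℝ (Fin d))} (hs : RSym C b o K)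
    (w : List (Fin d)) (x : Fin d → ℝ) (hx : o + ∑ j, x j • b j ∈ K) :
    o + ∑ j, act C w x j • b j ∈ K := by
  induction w with
  | nil => exact hx
  | cons i w ih =>
    have h := hs i _ ih
    rw [sum_sx] at h
    exact h

/-- `o` is in the interior if some words, the empty word among them, have the sum `0`. -/
theorem mem_interior_of_words {C : Matrix (Fin d) (Fin d) ℝ}
    {b : Module.Basis (Fin d) ℝ (EuclideanSpace ℝ (Fin d))} {o : EuclideanSpace ℝ (Fin d)}
    {K : Set (EuclideanSpace ℝ (Fin d))} (hconv : Convex ℝ K) (hcomp : IsCompact K)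
    (hint : (interior K).Nonempty) (hs : RSym C b o K) (ws : List (List (Fin d)))
    (hsum : ∀ x : Fin d → ℝ, x + (ws.map fun w => act C w x).sum = 0) : o ∈ interior K := by
  by_contra ho
  obtain ⟨f, hf⟩ := geometric_hahn_banach_open_point hconv.interior isOpen_interior ho
  have hcl : closure (interior K) = K := by
    rw [hconv.closure_interior_eq_closure_of_nonempty_interior hint]
    exact hcomp.isClosed.closure_eq
  have hle : ∀ y ∈ K, f y ≤ f o := by
    intro y hy
    rw [← hcl] at hy
    have h3 : closure (interior K) ⊆ {y | f y ≤ f o} :=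
      closure_minimal (fun z hz => (hf z hz).le) (isClosed_le f.continuous continuous_const)
    exact h3 hy
  obtain ⟨y, hy⟩ := hint
  have hyK : y ∈ K := interior_subset hy
  set g : (Fin d → ℝ) → ℝ := fun x => ∑ j, fu b f j * x j with hg
  have hgf : ∀ x : Fin d → ℝ, f (o + ∑ j, x j • b j) = f o + g x := by
    intro x
    rw [map_add, map_sum, hg]
    congr 1
    refine sum_congr rfl fun j _ => ?_
    rw [map_smul, smul_eq_mul, fu, mul_comm]
  have hlt : g (co b o y) < 0 := by
    have h1 := hf y hy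
    have h2 := hgf (co b o y)
    rw [sum_co, add_sub_cancel] at h2
    linarith
  have hws : ∀ l : List (List (Fin d)), g ((l.map fun w => act C w (co b o y)).sum) ≤ 0 := by
    intro l
    induction l with
    | nil => simp [hg]
    | cons w l ih =>
      rw [List.map_cons, List.sum_cons]
      have h1 : g (act C w (co b o y) + (l.map fun w => act C w (co b o y)).sum) =
          g (act C w (co b o y)) + g ((l.map fun w => act C w (co b o y)).sum) := by
        simp only [hg, Pi.add_apply, mul_add, sum_add_distrib]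
      have h2 := hle _ (act_mem hs w _ (mem_coord hyK))
      rw [hgf] at h2
      rw [h1]
      linarith
  have h1 : g (co b o y + (ws.map fun w => act C w (co b o y)).sum) =
      g (co b o y) + g ((ws.map fun w => act C w (co b o y)).sum) := by
    simp only [hg, Pi.add_apply, mul_add, sum_add_distrib]
  rw [hsum] at h1
  have h2 : g 0 = 0 := by simp [hg]
  have h3 := hws ws
  linarith

/-! ### The matrix of `E_6` -/

/-- The Cartan matrix of `E_6` with real entries. -/
noncomputable def C6 : Matrix (Fin 6) (Fin 6) ℝ := fun i j => (C i j : ℝ)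

/-- The matrix of `s_i` in the basis. -/
def ms (i : Fin 6) : Matrix (Fin 6) (Fin 6) ℤ := fun j k => (if j = k then 1 else 0) - if j = i then C i k else 0

/-- The Coxeter element. -/
def cox : Matrix (Fin 6) (Fin 6) ℤ := ms 0 * (ms 1 * (ms 2 * (ms 3 * (ms 4 * ms 5))))

theorem cox_sum : 1 + cox + cox * cox + cox * (cox * cox) + cox * (cox * (cox * cox)) + cox * (cox * (cox * (cox * cox)))
    + cox * (cox * (cox * (cox * (cox * cox)))) + cox * (cox * (cox * (cox * (cox * (cox * cox)))))
    + cox * (cox * (cox * (cox * (cox * (cox * (cox * cox))))))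
    + cox * (cox * (cox * (cox * (cox * (cox * (cox * (cox * cox)))))))
    + cox * (cox * (cox * (cox * (cox * (cox * (cox * (cox * (cox * cox))))))))
    + cox * (cox * (cox * (cox * (cox * (cox * (cox * (cox * (cox * (cox * cox))))))))) = 0 := by
  decide +kernel

open Matrix in
theorem ms_mulVec (i : Fin 6) (x : Fin 6 → ℝ) :
    ((ms i).map (Int.cast : ℤ → ℝ)) *ᵥ x = sx C6 i x := by
  funext j
  simp only [Matrix.mulVec, dotProduct, Matrix.map_apply, ms, sx, C6]
  by_cases h : j = i
  · simp only [h, if_true, Int.cast_sub, Int.cast_ite, Int.cast_one, Int.cast_zero, sub_mul, ite_mul, one_mul,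
      zero_mul, sum_sub_distrib, sum_ite_eq, mem_univ]
  · simp only [h, if_false, Int.cast_sub, Int.cast_ite, Int.cast_one, Int.cast_zero, sub_mul, ite_mul, one_mul,
      zero_mul, sum_sub_distrib, sum_ite_eq, mem_univ, if_true, sum_const_zero]

open Matrix in
theorem cox_mulVec (x : Fin 6 → ℝ) : (cox.map (Int.cast : ℤ → ℝ)) *ᵥ x = act C6 [0, 1, 2, 3, 4, 5] x := by
  have hmul : ∀ A B : Matrix (Fin 6) (Fin 6) ℤ, (A * B).map (Int.cast : ℤ → ℝ) =
      A.map (Int.cast : ℤ → ℝ) * B.map (Int.cast : ℤ → ℝ) := by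
    intro A B
    ext a c
    simp [Matrix.mul_apply]
  unfold cox
  rw [hmul, hmul, hmul, hmul, hmul]
  simp only [← Matrix.mulVec_mulVec, ms_mulVec, act, List.foldr]

open Matrix in
theorem words_sum (x : Fin 6 → ℝ) :
    x + ((List.map (fun k => (List.replicate (k + 1) [(0 : Fin 6), 1, 2, 3, 4, 5]).flatten)
      (List.range 11)).map fun w => act C6 w x).sum = 0 := by
  have happ : ∀ (l m : List (Fin 6)) (y : Fin 6 → ℝ), act C6 (l ++ m) y = act C6 l (act C6 m y) := by
    intro l m y
    simp only [act, List.foldr_append]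
  set M : Matrix (Fin 6) (Fin 6) ℝ := cox.map (Int.cast : ℤ → ℝ) with hM
  have h1 : ∀ y : Fin 6 → ℝ, act C6 [0, 1, 2, 3, 4, 5] y = M *ᵥ y := fun y => (cox_mulVec y).symm
  have h2 := congrArg (fun A : Matrix (Fin 6) (Fin 6) ℤ => (Int.castRingHom ℝ).mapMatrix A) cox_sum
  simp only [map_add, map_mul, map_one, map_zero] at h2
  have h3 : (Int.castRingHom ℝ).mapMatrix cox = M := rfl
  rw [h3] at h2
  have h4 := congrArg (fun A : Matrix (Fin 6) (Fin 6) ℝ => A *ᵥ x) h2
  simp only [Matrix.add_mulVec, ← Matrix.mulVec_mulVec, Matrix.one_mulVec, Matrix.zero_mulVec] at h4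
  have h5 : List.range 11 = [0, 1, 2, 3, 4, 5, 6, 7, 8, 9, 10] := by decide
  rw [h5]
  simp only [List.map_cons, List.map_nil, List.sum_cons, List.sum_nil, List.replicate_succ, List.replicate_zero,
    List.flatten_cons, List.flatten_nil, List.append_nil, happ, h1]
  refine Eq.trans ?_ h4
  abel

theorem mem_interior_E6 {b : Module.Basis (Fin 6) ℝ (EuclideanSpace ℝ (Fin 6))}
    {o : EuclideanSpace ℝ (Fin 6)} {K : Set (EuclideanSpace ℝ (Fin 6))} (hconv : Convex ℝ K)
    (hcomp : IsCompact K) (hint : (interior K).Nonempty) (hs : RSym C6 b o K) : o ∈ interior K :=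
  mem_interior_of_words hconv hcomp hint hs _ words_sum

theorem C6_diag (i : Fin 6) : C6 i i = 2 := by
  have h : ∀ i, C i i = 2 := by decide
  simp [C6, h i]

theorem sx_eq (i : Fin 6) (x : Fin 6 → ℝ) : sx C6 i x = rx i x := by
  funext j
  unfold sx rx C6
  split_ifs <;> simp

theorem su_eq (i : Fin 6) (u : Fin 6 → ℝ) : su C6 i u = ru i u := rfl

theorem dual6_GK {b : Module.Basis (Fin 6) ℝ (EuclideanSpace ℝ (Fin 6))} {o : EuclideanSpace ℝ (Fin 6)}
    {K : Set (EuclideanSpace ℝ (Fin 6))} (hK : Body o K) (hs : RSym C6 b o K) : Dual6 (GK b o K) := by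
  have h := rdual_GK C6_diag hK hs
  refine ⟨h.one, h.le, fun p hp i => ?_⟩
  rw [← sx_eq, ← su_eq]
  exact h.inv p hp i

end Pool.Agent.Lib.MP_5e7226_co.E6X
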