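import Pool.Agent.Lib.MP_5e7226_co.DX.Defs
import Pool.Agent.Lib.MP_5e7226_co.E6X.Defs

set_option autoImplicit false

/-! Duality of `E_6`: the statement for `swp G` follows from the statement for all `G`. -/

namespace Pool.Agent.Lib.MP_5e7226_co.E6X

open Finset Matrix
open Pool.Agent.Lib.MP_5e7226_co.DX (Works swp)

/-- `3 C⁻¹` -/
private def A3 : Matrix (Fin 6) (Fin 6) ℤ :=
  !![4, 3, 5, 6, 4, 2;
     3, 6, 6, 9, 6, 3;
     5, 6, 10, 12, 8, 4;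
     6, 9, 12, 18, 12, 6;
     4, 6, 8, 12, 10, 5;
     2, 3, 4, 6, 5, 4]

private noncomputable def Cm : Matrix (Fin 6) (Fin 6) ℝ := fun i j => (C i j : ℝ)

private noncomputable def Am : Matrix (Fin 6) (Fin 6) ℝ := fun i j => (A3 i j : ℝ) / 3

private theorem C_sym (i j : Fin 6) : C i j = C j i := by
  revert i j; decide +kernel

private theorem A3_sym (i j : Fin 6) : A3 i j = A3 j i := by
  revert i j; decide +kernel

private theorem C_A3 (i j : Fin 6) : ∑ k, C i k * A3 k j = if i = j then 3 else 0 := by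
  revert i j; decide +kernel

private theorem Cm_symm : Cmᵀ = Cm := by
  ext i j
  simp only [transpose_apply, Cm, C_sym j i]

private theorem Am_symm : Amᵀ = Am := by
  ext i j
  simp only [transpose_apply, Am, A3_sym j i]

private theorem Cm_Am : Cm * Am = 1 := by
  ext i j
  have h1 := congrArg (Int.cast : ℤ → ℝ) (C_A3 i j)
  have h2 : ∑ k, (C i k : ℝ) * (A3 k j : ℝ) = if i = j then 3 else 0 := by
    push_cast at h1
    exact h1
  have h3 : (Cm * Am) i j = (∑ k, (C i k : ℝ) * (A3 k j : ℝ)) / 3 := by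
    rw [mul_apply, Finset.sum_div]
    exact Finset.sum_congr rfl fun k _ => by simp only [Cm, Am]; ring
  rw [h3, h2, one_apply]
  split_ifs <;> norm_num

private theorem Am_Cm : Am * Cm = 1 := by
  have h := congrArg transpose Cm_Am
  rw [transpose_mul, Cm_symm, Am_symm, transpose_one] at h
  exact h

private theorem CA (x : Fin 6 → ℝ) : Cm *ᵥ (Am *ᵥ x) = x := by
  rw [mulVec_mulVec, Cm_Am, one_mulVec]

private theorem AC (x : Fin 6 → ℝ) : Am *ᵥ (Cm *ᵥ x) = x := by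
  rw [mulVec_mulVec, Am_Cm, one_mulVec]

private theorem C_dot (x y : Fin 6 → ℝ) : (Cm *ᵥ x) ⬝ᵥ y = x ⬝ᵥ (Cm *ᵥ y) := by
  rw [dotProduct_mulVec, ← mulVec_transpose, Cm_symm]

private theorem C_rx (i : Fin 6) (x : Fin 6 → ℝ) : Cm *ᵥ (rx i x) = ru i (Cm *ᵥ x) := by
  have h1 : rx i x = x - ((Cm *ᵥ x) i) • (Pi.single i 1 : Fin 6 → ℝ) := by
    funext j
    by_cases hj : j = i
    · subst hj
      simp [rx, Cm, mulVec, dotProduct]
    · simp [rx, hj]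
  rw [h1, mulVec_sub, mulVec_smul]
  funext j
  simp only [Pi.sub_apply, Pi.smul_apply, smul_eq_mul, ru, mulVec_single_one, col_apply, Cm]
  rw [C_sym j i]
  ring

private theorem A_ru (i : Fin 6) (u : Fin 6 → ℝ) : Am *ᵥ (ru i u) = rx i (Am *ᵥ u) := by
  have h := C_rx i (Am *ᵥ u)
  rw [CA] at h
  rw [← h, AC]

/-- The dual of `G`. -/
private def dl (G : Set ((Fin 6 → ℝ) × (Fin 6 → ℝ))) : Set ((Fin 6 → ℝ) × (Fin 6 → ℝ)) :=
  {q | (Am *ᵥ q.2, Cm *ᵥ q.1) ∈ G}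

private theorem dual_dl {G : Set ((Fin 6 → ℝ) × (Fin 6 → ℝ))} (hG : Dual6 G) : Dual6 (dl G) where
  one p hp := by
    have h := hG.one _ hp
    have h1 : (Cm *ᵥ p.1) ⬝ᵥ (Am *ᵥ p.2) = 1 := h
    rw [C_dot, CA, dotProduct_comm] at h1
    exact h1
  le p hp q hq := by
    have h := hG.le _ hq _ hp
    have h1 : (Cm *ᵥ q.1) ⬝ᵥ (Am *ᵥ p.2) ≤ 1 := h
    rw [C_dot, CA, dotProduct_comm] at h1
    exact h1
  inv p hp i := by
    have h := hG.inv _ hp i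
    change (Am *ᵥ (ru i p.2), Cm *ᵥ (rx i p.1)) ∈ G
    rw [A_ru, C_rx]
    exact h

/-- If the core statement holds for all `G`, then it holds for `swp G`. -/
theorem swp_of_core
    (H : ∀ G : Set ((Fin 6 → ℝ) × (Fin 6 → ℝ)), Dual6 G →
      ∃ (ι : Type) (_ : Fintype ι), Fintype.card ι ≤ 54 ∧
        ∃ z : ι → Fin 6 → ℝ, ∀ q ∈ G, ∃ i, Works G q.1 (z i))
    {G : Set ((Fin 6 → ℝ) × (Fin 6 → ℝ))} (hG : Dual6 G) :
    ∃ (ι : Type) (_ : Fintype ι), Fintype.card ι ≤ 54 ∧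
      ∃ z : ι → Fin 6 → ℝ, ∀ q ∈ swp G, ∃ i, Works (swp G) q.1 (z i) := by
  obtain ⟨ι, inst, hcard, z, hz⟩ := H (dl G) (dual_dl hG)
  refine ⟨ι, inst, hcard, fun i => Cm *ᵥ z i, fun q hq => ?_⟩
  have key : ∀ u : Fin 6 → ℝ, (q.1, u) ∈ swp G → (Am *ᵥ q.1, Cm *ᵥ u) ∈ dl G := fun u hu => by
    change (Am *ᵥ (Cm *ᵥ u), Cm *ᵥ (Am *ᵥ q.1)) ∈ G
    rw [AC, CA]
    exact hu
  obtain ⟨i, hi⟩ := hz _ (key q.2 hq)
  refine ⟨i, fun u hu => ?_⟩
  have h1 := hi _ (key u hu)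
  have h2 : (Cm *ᵥ u) ⬝ᵥ z i = u ⬝ᵥ (Cm *ᵥ z i) := C_dot _ _
  have h3 : 0 < (Cm *ᵥ u) ⬝ᵥ z i := h1
  rw [h2] at h3
  exact h3

end Pool.Agent.Lib.MP_5e7226_co.E6X
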