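import Pool.Agent.Lib.MP_5e7226_co.E6X.Asm
import Pool.Agent.Lib.MP_5e7226_co.E6X.Swp0

set_option autoImplicit false

namespace Pool.Agent.Lib.MP_5e7226_co.E6X

open Pool.Agent.Lib.MP_5e7226_co.DX (Works swp)

theorem core_swp {G : Set ((Fin 6 → ℝ) × (Fin 6 → ℝ))} (hG : Dual6 G) :
    ∃ (ι : Type) (_ : Fintype ι), Fintype.card ι ≤ 54 ∧
      ∃ z : ι → Fin 6 → ℝ, ∀ q ∈ swp G, ∃ i, Works (swp G) q.1 (z i) :=
  swp_of_core (fun _ h => core h) hG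

end Pool.Agent.Lib.MP_5e7226_co.E6X
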